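import Pool.Agent.Q331.FC.Stmts

/-! Assembly for MP_207c40_pr (helper331) -/

set_option autoImplicit false

namespace Pool.Agent.Q331.FC

open MeasureTheory ProbabilityTheory Filter Topology Finset

theorem assemble (hChain : TaskChain) (hEnt : TaskEnt) (hPath : TaskPath) (hPres : TaskPres)
    (hCyl : TaskCyl) (hEqui : TaskEqui) (hLaw : TaskLaw) (hKey : TaskKey) (hUnion : TaskUnion)
    (hPos : TaskPos) (hTail : TaskTail) (hNeg : TaskNeg) (hInt : TaskInt) (hSn : TaskSn)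
    (hAbs : TaskAbs) (hMart : TaskMart) (hZero : TaskZero) (hEnd : TaskEnd) :
    ∃ (P : Matrix (Fin 2) (Fin 2) ℝ) (π : Fin 2 → ℝ), IsChain P π ∧ ExpReturn P ∧
      ∀ (E : Type) [MeasurableSpace E] [MeasurableSingletonClass E] (ν : Measure E)
        [IsProbabilityMeasure ν], HasEntropy ν (chainEntropy P π) →
        ∀ (φ : (ℤ → E) → ℤ → Fin 2) (R : (ℤ → E) → ℕ), IsFactor ν P π φ → IsWindow ν φ R →
          ¬ ExpTail ν R := by
  refine ⟨gP, gpi, hChain.1, hChain.2, ?_⟩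
  intro E _ _ ν _ hH φ R hφ hR hT
  rw [show chainEntropy gP gpi = Real.log lam from hEnt] at hH
  have hpos : 0 < Real.log lam := Real.log_pos Real.one_lt_goldenRatio
  obtain ⟨K, c, hK, hc, htail⟩ :=
    hTail hKey hUnion hPos hPres hEqui hCyl hLaw hPath E ν φ R hH hφ hR hT
  obtain ⟨D, hD, hneg⟩ := hNeg (Real.log lam) K c hpos hK hc
  have hS := hSn hInt E ν (Real.log lam) hH
  have habs : ∀ n, ∫ y, |Sn ν (Real.log lam) n y| ∂iid ν ≤ 2 * D := fun n =>
    hAbs (ℤ → E) (iid ν) (Sn ν (Real.log lam) n) D hD (hS n).1 (hS n).2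
      (hneg (ℤ → E) (iid ν) (Sn ν (Real.log lam) n) (hS n).1.aemeasurable
        (fun r => htail n r))
  have hz := hZero hMart E ν (info ν (Real.log lam)) (hInt E ν _ hH).1 (hInt E ν _ hH).2 (2 * D)
    (fun n => habs n)
  exact hEnd E ν (hPos E ν _ hH).1 hz

end Pool.Agent.Q331.FC
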