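import Pool.Agent.Q331.FC.Stmts

set_option autoImplicit false

namespace Pool.Agent.Q331.FC.Equi331

open MeasureTheory ProbabilityTheory Filter Topology Finset

theorem main : Pool.Agent.Q331.FC.TaskEqui := by
  intro hP E _ ν _ φ h
  rw [ae_all_iff]
  intro i
  induction i with
  | zero => exact Filter.Eventually.of_forall fun y => rfl
  | succ i ih =>
    have h1 : ∀ᵐ y ∂iid ν, φ (sh (sh^[i] y)) = sh (φ (sh^[i] y)) :=
      ((hP E ν).iterate i).quasiMeasurePreserving.ae h
    filter_upwards [ih, h1] with y h2 h3
    rw [Function.iterate_succ_apply', h3, h2, Function.iterate_succ_apply']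

end Pool.Agent.Q331.FC.Equi331
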