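import Mathlib

/-! Blueprint for MP_207c40_pr (Q1, negated form): the golden mean Markov chain (entropy `log lam`,
`lam` the golden ratio, all cylinders of length `n` of measure about `lam ^ (-n)`) is not a finitary
factor with exponentially tailed coding window of any iid process of the same entropy.

Proof. On the good event the block `φ(y)_r .. φ(y)_(n-1-r)` is a function of `y_0 .. y_(n-1)`, so
`∏ ν{y_i} ≤ lam ^ (2 r + 2 - n)`; so `S_n = ∑ (-log ν{y_i} - h) ≥ -(2 r + 2) h` outside an event of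
probability `K e^(-c r)`, for all `n`; so `E S_n^- ≤ D`, `E |S_n| ≤ 2 D`; a martingale bounded in
`L¹` converges, so its iid steps vanish: `ν{y_0} = 1 / lam` a.s.; so `lam` is an integer. -/

set_option autoImplicit false

namespace Pool.Agent.Q331.FC

open MeasureTheory ProbabilityTheory Filter Topology Finset

/-! ### definitions of the problem -/

/-- an ergodic (irreducible, aperiodic) Markov chain on a finite state space: stochastic matrix
and stationary law -/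
structure IsChain {S : Type} [Fintype S] [DecidableEq S] (P : Matrix S S ℝ) (π : S → ℝ) :
    Prop where
  nonneg : ∀ i j, 0 ≤ P i j
  sum_one : ∀ i, ∑ j, P i j = 1
  pi_nonneg : ∀ i, 0 ≤ π i
  pi_sum : ∑ i, π i = 1
  stat : ∀ j, ∑ i, π i * P i j = π j
  ergodic : ∃ n : ℕ, ∀ i j, 0 < (P ^ n) i j

/-- `P(τ_s > n | M_0 = i)`, `τ_s = inf {n ≥ 1 : M_n = s}` -/
def surv {S : Type} [Fintype S] [DecidableEq S] (P : Matrix S S ℝ) (s : S) : ℕ → S → ℝ
  | 0, _ => 1
  | n + 1, i => ∑ j, if j = s then 0 else P i j * surv P s n j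

/-- exponential return times -/
def ExpReturn {S : Type} [Fintype S] [DecidableEq S] (P : Matrix S S ℝ) : Prop :=
  ∃ (s : S) (C c : ℝ), 0 < c ∧ ∀ n : ℕ, surv P s n s ≤ C * Real.exp (-(c * n))

/-- the entropy of the stationary chain -/
noncomputable def chainEntropy {S : Type} [Fintype S] (P : Matrix S S ℝ) (π : S → ℝ) : ℝ :=
  ∑ i, π i * ∑ j, Real.negMulLog (P i j)

/-- the probability that the stationary chain starts with `m 0, ..., m n` -/
noncomputable def pathProb {S : Type} (P : Matrix S S ℝ) (π : S → ℝ) (n : ℕ) (m : ℕ → S) : ℝ :=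
  π (m 0) * ∏ k ∈ range n, P (m k) (m (k + 1))

/-- the law of the iid process with marginal `ν` -/
noncomputable def iid {E : Type} [MeasurableSpace E] (ν : Measure E) : Measure (ℤ → E) :=
  Measure.infinitePi (fun _ : ℤ => ν)

instance {E : Type} [MeasurableSpace E] (ν : Measure E) [IsProbabilityMeasure ν] :
    IsProbabilityMeasure (iid ν) := by
  unfold iid
  infer_instance

/-- the shift -/
def sh {E : Type} (y : ℤ → E) : ℤ → E := fun i => y (i + 1)

/-- `φ` is measurable, commutes with the shift (almost everywhere) and maps the iid process to the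
chain -/
structure IsFactor {E S : Type} [MeasurableSpace E] [MeasurableSpace S] (ν : Measure E)
    (P : Matrix S S ℝ) (π : S → ℝ) (φ : (ℤ → E) → ℤ → S) : Prop where
  meas : Measurable φ
  equi : ∀ᵐ y ∂iid ν, φ (sh y) = sh (φ y)
  law : ∀ (n : ℕ) (m : ℕ → S),
    (iid ν).real {y | ∀ k : ℕ, k ≤ n → φ y (k : ℤ) = m k} = pathProb P π n m

/-- `R` is a coding window: for almost every `y` the value `φ(y)_0` is determined by
`y_(-R), ..., y_R` -/
def IsWindow {E S : Type} [MeasurableSpace E] (ν : Measure E) (φ : (ℤ → E) → ℤ → S)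
    (R : (ℤ → E) → ℕ) : Prop :=
  ∃ G : Set (ℤ → E), (∀ᵐ y ∂iid ν, y ∈ G) ∧
    ∀ y ∈ G, ∀ y' ∈ G, (∀ i : ℤ, |i| ≤ R y → y' i = y i) → φ y' 0 = φ y 0

/-- exponential tails -/
def ExpTail {E : Type} [MeasurableSpace E] (ν : Measure E) (R : (ℤ → E) → ℕ) : Prop :=
  ∃ C c : ℝ, 0 < c ∧ ∀ r : ℕ, iid ν {y | r < R y} ≤ ENNReal.ofReal (C * Real.exp (-(c * r)))

/-- the Shannon entropy of `ν` is `h` (`< ∞`): `ν` is carried by a countable set -/
def HasEntropy {E : Type} [MeasurableSpace E] (ν : Measure E) (h : ℝ) : Prop :=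
  ∃ A : Set E, A.Countable ∧ ν Aᶜ = 0 ∧
    HasSum (fun a : A => Real.negMulLog (ν.real {(a : E)})) h

/-! ### the golden mean chain -/

/-- the golden ratio -/
noncomputable def lam : ℝ := Real.goldenRatio

noncomputable def gP : Matrix (Fin 2) (Fin 2) ℝ := !![1 / lam, 1 / lam ^ 2; 1, 0]

noncomputable def gpi : Fin 2 → ℝ := ![lam ^ 2 / (lam ^ 2 + 1), 1 / (lam ^ 2 + 1)]

/-- `lam ^ 2 = lam + 1`; `gP ^ 2` is positive; the return time of `0` is at most `2` -/
def TaskChain : Prop := IsChain gP gpi ∧ ExpReturn gP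

def TaskEnt : Prop := chainEntropy gP gpi = Real.log lam

/-- `gP i j = lam⁻¹ v_j / v_i` (if `gP i j ≠ 0`) with `v = (1, 1 / lam)` -/
def TaskPath : Prop := ∀ (n : ℕ) (m : ℕ → Fin 2), pathProb gP gpi n m ≤ lam / lam ^ n

/-! ### iid processes -/

/-- reindexing of `infinitePi` -/
def TaskPres : Prop := ∀ (E : Type) [MeasurableSpace E] (ν : Measure E) [IsProbabilityMeasure ν],
  MeasurePreserving (sh (E := E)) (iid ν) (iid ν)

/-- `Measure.infinitePi_pi` or similar -/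
def TaskCyl : Prop := ∀ (E : Type) [MeasurableSpace E] [MeasurableSingletonClass E]
  (ν : Measure E) [IsProbabilityMeasure ν] (y : ℤ → E) (n : ℕ),
  iid ν {y' | ∀ i : ℕ, i < n → y' (i : ℤ) = y i} = ∏ i ∈ range n, ν {y (i : ℤ)}

/-- countable intersection, TaskPres -/
def TaskEqui : Prop := TaskPres → ∀ (E : Type) [MeasurableSpace E] (ν : Measure E)
  [IsProbabilityMeasure ν] (φ : (ℤ → E) → ℤ → Fin 2), (∀ᵐ y ∂iid ν, φ (sh y) = sh (φ y)) →
  ∀ᵐ y ∂iid ν, ∀ i : ℕ, φ (sh^[i] y) = sh^[i] (φ y)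

/-- shifted law -/
def TaskLaw : Prop := TaskPres → TaskEqui → ∀ (E : Type) [MeasurableSpace E] (ν : Measure E)
  [IsProbabilityMeasure ν] (φ : (ℤ → E) → ℤ → Fin 2), IsFactor ν gP gpi φ →
  ∀ (r n : ℕ) (m : ℕ → Fin 2),
  (iid ν).real {y | ∀ k : ℕ, k ≤ n → φ y (((r + k : ℕ) : ℤ)) = m k} = pathProb gP gpi n m

/-- all windows of the places `r ≤ i ≤ n - 1 - r` are in `[0, n - 1]` -/
def Win {E : Type} (R : (ℤ → E) → ℕ) (n r : ℕ) (y : ℤ → E) : Prop :=
  ∀ i : ℕ, r ≤ i → i + r < n → R (sh^[i] y) ≤ i ∧ R (sh^[i] y) + i < n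

/-- for good `y` with `Win`, the cylinder of `y` of length `n` is (up to a null set) contained in
`{y' | φ y' i = φ y i, r ≤ i ≤ n - 1 - r}`. If `n ≤ 2 r` the bound is trivial. -/
def TaskKey : Prop := TaskPres → TaskEqui → TaskCyl → TaskLaw → TaskPath →
  ∀ (E : Type) [MeasurableSpace E] [MeasurableSingletonClass E] (ν : Measure E)
  [IsProbabilityMeasure ν] (φ : (ℤ → E) → ℤ → Fin 2) (R : (ℤ → E) → ℕ),
  IsFactor ν gP gpi φ → IsWindow ν φ R →
  ∀ᵐ y ∂iid ν, ∀ n r : ℕ, Win R n r y →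
    ∏ i ∈ range n, ν.real {y (i : ℤ)} ≤ lam ^ (2 * r + 2) / lam ^ n

/-- union bound and geometric series (`iid ν {y | r < R (sh^[i] y)} ≤ iid ν {y | r < R y}` also for
a set that is not measurable: `toMeasurable`) -/
def TaskUnion : Prop := TaskPres → ∀ (E : Type) [MeasurableSpace E] (ν : Measure E)
  [IsProbabilityMeasure ν] (R : (ℤ → E) → ℕ) (C c : ℝ), 0 < c →
  (∀ r : ℕ, iid ν {y | r < R y} ≤ ENNReal.ofReal (C * Real.exp (-(c * r)))) →
  ∃ K : ℝ, 0 ≤ K ∧ ∀ n r : ℕ, iid ν {y | ¬ Win R n r y} ≤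
    ENNReal.ofReal (K * Real.exp (-(c * r)))

/-- the information -/
noncomputable def info {E : Type} [MeasurableSpace E] (ν : Measure E) (h : ℝ) (e : E) : ℝ :=
  -Real.log (ν.real {e}) - h

/-- `S_n` -/
noncomputable def Sn {E : Type} [MeasurableSpace E] (ν : Measure E) (h : ℝ) (n : ℕ)
    (y : ℤ → E) : ℝ := ∑ i ∈ range n, info ν h (y (i : ℤ))

/-- almost every symbol has positive probability -/
def TaskPos : Prop := ∀ (E : Type) [MeasurableSpace E] [MeasurableSingletonClass E]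
  (ν : Measure E) [IsProbabilityMeasure ν] (h : ℝ), HasEntropy ν h →
  (∀ᵐ e ∂ν, 0 < ν.real {e}) ∧ ∀ᵐ y ∂iid ν, ∀ i : ℤ, 0 < ν.real {y i}

/-- take logarithms in TaskKey -/
def TaskTail : Prop := TaskKey → TaskUnion → TaskPos → TaskPres → TaskEqui → TaskCyl → TaskLaw →
  TaskPath → ∀ (E : Type) [MeasurableSpace E] [MeasurableSingletonClass E] (ν : Measure E)
  [IsProbabilityMeasure ν] (φ : (ℤ → E) → ℤ → Fin 2) (R : (ℤ → E) → ℕ),
  HasEntropy ν (Real.log lam) → IsFactor ν gP gpi φ → IsWindow ν φ R → ExpTail ν R →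
  ∃ K c : ℝ, 0 ≤ K ∧ 0 < c ∧ ∀ n r : ℕ,
    iid ν {y | Sn ν (Real.log lam) n y < -((2 * r + 2) * Real.log lam)} ≤
      ENNReal.ofReal (K * Real.exp (-(c * r)))

/-- `(-f) ≤ 2 h + ∑_r 2 h 1{f < -(2 r + 2) h}` -/
def TaskNeg : Prop := ∀ h K c : ℝ, 0 < h → 0 ≤ K → 0 < c → ∃ D : ℝ, 0 ≤ D ∧ ∀ (Ω : Type)
  [MeasurableSpace Ω] (μ : Measure Ω) [IsProbabilityMeasure μ] (f : Ω → ℝ), AEMeasurable f μ →
  (∀ r : ℕ, μ {ω | f ω < -((2 * r + 2) * h)} ≤ ENNReal.ofReal (K * Real.exp (-(c * r)))) →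
  ∫⁻ ω, ENNReal.ofReal (-(f ω)) ∂μ ≤ ENNReal.ofReal D

/-- the integral over a measure carried by a countable set is a sum -/
def TaskInt : Prop := ∀ (E : Type) [MeasurableSpace E] [MeasurableSingletonClass E]
  (ν : Measure E) [IsProbabilityMeasure ν] (h : ℝ), HasEntropy ν h →
  Integrable (info ν h) ν ∧ ∫ e, info ν h e ∂ν = 0

/-- `measurePreserving_eval_infinitePi`, linearity -/
def TaskSn : Prop := TaskInt → ∀ (E : Type) [MeasurableSpace E] [MeasurableSingletonClass E]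
  (ν : Measure E) [IsProbabilityMeasure ν] (h : ℝ), HasEntropy ν h → ∀ n : ℕ,
  Integrable (Sn ν h n) (iid ν) ∧ ∫ y, Sn ν h n y ∂iid ν = 0

/-- `|x| = x + 2 x⁻` -/
def TaskAbs : Prop := ∀ (Ω : Type) [MeasurableSpace Ω] (μ : Measure Ω) [IsProbabilityMeasure μ]
  (f : Ω → ℝ) (D : ℝ), 0 ≤ D → Integrable f μ → ∫ ω, f ω ∂μ = 0 →
  ∫⁻ ω, ENNReal.ofReal (-(f ω)) ∂μ ≤ ENNReal.ofReal D → ∫ ω, |f ω| ∂μ ≤ 2 * D

/-- sums of iid centred functions form a martingale. Hint: `condExp_indep_eq`, `iIndepFun` of the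
coordinates of `infinitePi` -/
def TaskMart : Prop := ∀ (E : Type) [MeasurableSpace E] (ν : Measure E) [IsProbabilityMeasure ν]
  (f : E → ℝ), Measurable f → Integrable f ν → ∫ e, f e ∂ν = 0 →
  ∃ F : Filtration ℕ (inferInstance : MeasurableSpace (ℤ → E)),
    Martingale (fun n (y : ℤ → E) => ∑ i ∈ range n, f (y (i : ℤ))) F (iid ν)

/-- `Submartingale.ae_tendsto_limitProcess` (bounded in `L¹`), the steps tend to zero a.s., hence in
measure, and they have the same law. (Replace `f` by a measurable version.) -/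
def TaskZero : Prop := TaskMart → ∀ (E : Type) [MeasurableSpace E] (ν : Measure E)
  [IsProbabilityMeasure ν] (f : E → ℝ), Integrable f ν → ∫ e, f e ∂ν = 0 →
  ∀ D : ℝ, (∀ n : ℕ, ∫ y, |∑ i ∈ range n, f (y (i : ℤ))| ∂iid ν ≤ D) → f =ᵐ[ν] 0

/-- `ν {e} = 1 / lam` for almost every `e`: `N` atoms with `N / lam = 1`, but `1 < lam < 2` -/
def TaskEnd : Prop := ∀ (E : Type) [MeasurableSpace E] [MeasurableSingletonClass E]
  (ν : Measure E) [IsProbabilityMeasure ν], (∀ᵐ e ∂ν, 0 < ν.real {e}) →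
  ¬ info ν (Real.log lam) =ᵐ[ν] 0

end Pool.Agent.Q331.FC
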