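import Pool.Agent.Q331.FC.Stmts

set_option autoImplicit false

namespace Pool.Agent.Q331.FC.TaskAbs

open Pool.Agent.Q331.FC
open MeasureTheory

theorem main : Pool.Agent.Q331.FC.TaskAbs := by
  intro Ω _ μ _ f D hD hf h0 hneg
  have hpos : Integrable (fun ω => max (-(f ω)) 0) μ := hf.neg.pos_part
  have e1 : ∀ ω, |f ω| = f ω + 2 * max (-(f ω)) 0 := by
    intro ω
    rcases le_total (f ω) 0 with h | h
    · rw [abs_of_nonpos h, max_eq_left (by linarith)]
      ring
    · rw [abs_of_nonneg h, max_eq_right (by linarith)]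
      ring
  have e2 : ∫ ω, |f ω| ∂μ = 2 * ∫ ω, max (-(f ω)) 0 ∂μ := by
    rw [integral_congr_ae (Filter.Eventually.of_forall e1),
      integral_add hf (hpos.const_mul 2), h0, zero_add, integral_const_mul]
  have e3 : ∫ ω, max (-(f ω)) 0 ∂μ = (∫⁻ ω, ENNReal.ofReal (-(f ω)) ∂μ).toReal := by
    have hnn : 0 ≤ᵐ[μ] fun ω => max (-(f ω)) 0 :=
      Filter.Eventually.of_forall fun ω => le_max_right _ _
    rw [integral_eq_lintegral_of_nonneg_ae hnn hpos.aestronglyMeasurable]
    congr 1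
    refine lintegral_congr fun ω => ?_
    rcases le_total (-(f ω)) 0 with h | h
    · rw [max_eq_right h, ENNReal.ofReal_zero, ENNReal.ofReal_of_nonpos h]
    · rw [max_eq_left h]
  have e4 : (∫⁻ ω, ENNReal.ofReal (-(f ω)) ∂μ).toReal ≤ D := by
    have := ENNReal.toReal_mono ENNReal.ofReal_ne_top hneg
    rwa [ENNReal.toReal_ofReal hD] at this
  rw [e2, e3]
  linarith

end Pool.Agent.Q331.FC.TaskAbs
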