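import Pool.Agent.Q331.FC.Stmts

set_option autoImplicit false

namespace Pool.Agent.Q331.FC.TaskChain

open Pool.Agent.Q331.FC Finset

theorem lam_sq : lam ^ 2 = lam + 1 := Real.goldenRatio_sq

theorem lam_gt : 1 < lam := Real.one_lt_goldenRatio

theorem surv_one (n : ℕ) : surv gP 0 (n + 1) 1 = 0 := by
  simp [surv, Fin.sum_univ_two, gP]

theorem surv_ge (n : ℕ) : surv gP 0 (n + 2) 0 = 0 := by
  rw [surv, Fin.sum_univ_two]
  simp [surv_one]

theorem main : Pool.Agent.Q331.FC.TaskChain := by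
  have h1 := lam_gt
  have h2 := lam_sq
  have h0 : 0 < lam := by linarith
  have hne : lam ≠ 0 := h0.ne'
  refine ⟨⟨?_, ?_, ?_, ?_, ?_, ?_⟩, ?_⟩
  · intro i j
    fin_cases i <;> fin_cases j <;> simp [gP] <;> positivity
  · intro i
    fin_cases i
    · simp only [Fin.sum_univ_two]
      show 1 / lam + 1 / lam ^ 2 = 1
      field_simp
      linarith
    · simp [Fin.sum_univ_two, gP]
  · intro i
    fin_cases i
    · show 0 ≤ lam ^ 2 / (lam ^ 2 + 1); positivity
    · show 0 ≤ 1 / (lam ^ 2 + 1); positivity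
  · rw [Fin.sum_univ_two]
    show lam ^ 2 / (lam ^ 2 + 1) + 1 / (lam ^ 2 + 1) = 1
    field_simp
  · intro j
    fin_cases j
    · rw [Fin.sum_univ_two]
      show lam ^ 2 / (lam ^ 2 + 1) * (1 / lam) + 1 / (lam ^ 2 + 1) * 1 = lam ^ 2 / (lam ^ 2 + 1)
      field_simp
      nlinarith
    · rw [Fin.sum_univ_two]
      show lam ^ 2 / (lam ^ 2 + 1) * (1 / lam ^ 2) + 1 / (lam ^ 2 + 1) * 0 = 1 / (lam ^ 2 + 1)
      field_simp
      ring
  · refine ⟨2, fun i j => ?_⟩
    rw [pow_two, Matrix.mul_apply, Fin.sum_univ_two]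
    fin_cases i <;> fin_cases j
    · show 0 < 1 / lam * (1 / lam) + 1 / lam ^ 2 * 1; positivity
    · show 0 < 1 / lam * (1 / lam ^ 2) + 1 / lam ^ 2 * 0; positivity
    · show 0 < (1 : ℝ) * (1 / lam) + 0 * 1; positivity
    · show 0 < (1 : ℝ) * (1 / lam ^ 2) + 0 * 0; positivity
  · refine ⟨0, Real.exp 1, 1, one_pos, fun n => ?_⟩
    match n with
    | 0 =>
      have : 1 ≤ Real.exp 1 := Real.one_le_exp (by norm_num)
      simpa [surv] using this
    | 1 =>
      have e : surv gP 0 1 0 = 1 / lam ^ 2 := by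
        simp [surv, Fin.sum_univ_two, gP]
      rw [e, ← Real.exp_add]
      have h3 : Real.exp (1 + -(1 * ((1 : ℕ) : ℝ))) = 1 := by
        rw [← Real.exp_zero]; congr 1; push_cast; ring
      rw [h3, div_le_one (by positivity)]
      nlinarith
    | n + 2 =>
      rw [surv_ge]
      positivity

end Pool.Agent.Q331.FC.TaskChain
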