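import Pool.Agent.Q331.FC.Stmts

set_option autoImplicit false

namespace Pool.Agent.Q331.FC.TaskCyl

open MeasureTheory ProbabilityTheory Filter Topology Finset
open Pool.Agent.Q331.FC

theorem main : Pool.Agent.Q331.FC.TaskCyl := by
  intro E _ _ ν _ y n
  have h1 : {y' : ℤ → E | ∀ i : ℕ, i < n → y' (i : ℤ) = y i} =
      Set.pi (((range n).image (fun i : ℕ => (i : ℤ)) : Finset ℤ) : Set ℤ) (fun i => {y i}) := by
    ext y'
    simp only [Set.mem_ofPred_eq, Set.mem_pi, Finset.coe_image, Set.mem_image, Finset.mem_coe,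
      Finset.mem_range, Set.mem_singleton_iff]
    constructor
    · rintro h _ ⟨i, hi, rfl⟩
      exact h i hi
    · intro h i hi
      exact h i ⟨i, hi, rfl⟩
  rw [h1]
  unfold iid
  rw [Measure.infinitePi_pi _ (fun i _ => measurableSet_singleton _), Finset.prod_image]
  intro a _ b _ hab
  exact Int.ofNat_injective hab

end Pool.Agent.Q331.FC.TaskCyl
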