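import Pool.Agent.Q331.FC.Stmts
set_option autoImplicit false

namespace Pool.Agent.Q331.FC.TaskEnd

open MeasureTheory ProbabilityTheory Filter Topology Finset Pool.Agent.Q331.FC

theorem main : Pool.Agent.Q331.FC.TaskEnd := by
  intro E _ _ ν _ hpos hinfo
  have h1 : 1 < lam := Real.one_lt_goldenRatio
  have h2 : lam < 2 := Real.goldenRatio_lt_two
  have h0 : 0 < lam := by linarith
  have h : ∀ᵐ e ∂ν, ν.real {e} = 1 / lam := by
    filter_upwards [hpos, hinfo] with e he hi
    have hi' : -Real.log (ν.real {e}) - Real.log lam = 0 := hi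
    have h3 : Real.log (ν.real {e}) = Real.log (1 / lam) := by
      rw [one_div, Real.log_inv]; linarith
    exact Real.log_injOn_pos (Set.mem_Ioi.2 he) (Set.mem_Ioi.2 (by positivity)) h3
  obtain ⟨e0, he0⟩ := h.exists
  have hms : MeasurableSet ({e0} : Set E) := measurableSet_singleton e0
  have hc : ν.real ({e0} : Set E)ᶜ = 1 - 1 / lam := by
    rw [probReal_compl_eq_one_sub hms, he0]
  have hlt : 1 / lam < 1 := by rw [div_lt_one h0]; exact h1
  have hne : ν ({e0} : Set E)ᶜ ≠ 0 := by
    intro h4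
    have : ν.real ({e0} : Set E)ᶜ = 0 := by
      rw [measureReal_def, h4]; rfl
    linarith
  obtain ⟨e1, he1, he1'⟩ : ∃ e1, e1 ≠ e0 ∧ ν.real {e1} = 1 / lam := by
    by_contra hcon
    push Not at hcon
    refine hne (measure_mono_null ?_ (ae_iff.1 h))
    intro e he
    exact hcon e he
  have hms1 : MeasurableSet ({e1} : Set E) := measurableSet_singleton e1
  have hd : Disjoint ({e0} : Set E) {e1} := Set.disjoint_singleton.2 he1.symm
  have hu : ν.real ({e0} ∪ {e1} : Set E) = 1 / lam + 1 / lam := by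
    rw [measureReal_union hd hms1, he0, he1']
  have hle : ν.real ({e0} ∪ {e1} : Set E) ≤ 1 := measureReal_le_one
  rw [hu] at hle
  have : 1 / lam > 1 / 2 := one_div_lt_one_div_of_lt h0 h2
  linarith

end Pool.Agent.Q331.FC.TaskEnd
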