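import Pool.Agent.Q331.FC.Stmts

set_option autoImplicit false

namespace Pool.Agent.Q331.FC.TaskEnt

theorem main : Pool.Agent.Q331.FC.TaskEnt := by
  have hl0 : (0 : ℝ) < lam := Real.goldenRatio_pos
  have hsq : lam ^ 2 = lam + 1 := Real.goldenRatio_sq
  have hlne : lam ≠ 0 := hl0.ne'
  have h1 : Real.negMulLog (1 / lam) = (1 / lam) * Real.log lam := by
    rw [Real.negMulLog, one_div, Real.log_inv]
    ring
  have h2 : Real.negMulLog (1 / lam ^ 2) = (1 / lam ^ 2) * (2 * Real.log lam) := by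
    rw [Real.negMulLog, one_div, Real.log_inv, Real.log_pow]
    push_cast
    ring
  have e00 : gP 0 0 = 1 / lam := rfl
  have e01 : gP 0 1 = 1 / lam ^ 2 := rfl
  have e10 : gP 1 0 = 1 := rfl
  have e11 : gP 1 1 = 0 := rfl
  have p0 : gpi 0 = lam ^ 2 / (lam ^ 2 + 1) := rfl
  have p1 : gpi 1 = 1 / (lam ^ 2 + 1) := rfl
  show chainEntropy gP gpi = Real.log lam
  unfold chainEntropy
  rw [Fin.sum_univ_two, Fin.sum_univ_two, Fin.sum_univ_two, e00, e01, e10, e11, p0, p1, h1, h2,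
    Real.negMulLog_one, Real.negMulLog_zero]
  have hne : lam ^ 2 + 1 ≠ 0 := by positivity
  field_simp
  rw [hsq]
  ring

end Pool.Agent.Q331.FC.TaskEnt
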