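import Pool.Agent.Q331.FC.Stmts

/-! Task `FC.TaskEqui` (helper179). -/

set_option autoImplicit false

namespace Pool.Agent.Q331.FC.TaskEqui

open MeasureTheory ProbabilityTheory Filter Topology Finset

theorem main : Pool.Agent.Q331.FC.TaskEqui := by
  intro hP E _ ν _ φ h
  rw [ae_all_iff]
  intro i
  induction i with
  | zero => exact Filter.Eventually.of_forall fun y => rfl
  | succ k ih =>
    have hk : MeasurePreserving ((sh (E := E))^[k]) (iid ν) (iid ν) := (hP E ν).iterate k
    have h2 : ∀ᵐ y ∂iid ν, φ (sh (sh^[k] y)) = sh (φ (sh^[k] y)) :=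
      hk.quasiMeasurePreserving.ae h
    filter_upwards [ih, h2] with y h3 h4
    rw [Function.iterate_succ_apply', h4, h3, Function.iterate_succ_apply']

end Pool.Agent.Q331.FC.TaskEqui
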