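import Pool.Agent.Q331.FC.Stmts

set_option autoImplicit false

open MeasureTheory Filter

namespace Pool.Agent.Q331.FC.TaskEqui105

open Pool.Agent.Q331.FC

theorem main : Pool.Agent.Q331.FC.TaskEqui := by
  intro hpres E _ ν _ φ h
  have hp := hpres E ν
  have h1 : ∀ i : ℕ, ∀ᵐ y ∂iid ν, φ (sh (sh^[i] y)) = sh (φ (sh^[i] y)) := fun i =>
    (hp.iterate i).quasiMeasurePreserving.ae h
  have h2 := ae_all_iff.2 h1
  filter_upwards [h2] with y hy i
  induction i with
  | zero => rfl
  | succ i ih => rw [Function.iterate_succ_apply', Function.iterate_succ_apply', hy i, ih]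

end Pool.Agent.Q331.FC.TaskEqui105
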