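import Pool.Agent.Q331.FC.Stmts

set_option autoImplicit false

namespace Pool.Agent.Q331.FC.TEquiB

open MeasureTheory ProbabilityTheory Filter Topology Finset

theorem main : Pool.Agent.Q331.FC.TaskEqui := by
  intro hPres E _ ν _ φ h
  rw [ae_all_iff]
  intro i
  induction i with
  | zero => exact ae_of_all _ fun y => rfl
  | succ i ih =>
    have h1 : ∀ᵐ y ∂iid ν, φ (sh (sh^[i] y)) = sh (φ (sh^[i] y)) :=
      ((hPres E ν).iterate i).quasiMeasurePreserving.ae h
    filter_upwards [h1, ih] with y h2 h3
    rw [Function.iterate_succ_apply', h2, h3, Function.iterate_succ_apply']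

end Pool.Agent.Q331.FC.TEquiB
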