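import Pool.Agent.Q331.FC.Stmts

/-! MP_207c40_pr, crowd lemma FC.TaskEqui (helper37, fallback). -/

set_option autoImplicit false

namespace Pool.Agent.Q331.FC.TaskEquiH37

open MeasureTheory ProbabilityTheory Filter Topology Finset
open scoped ENNReal

theorem main : Pool.Agent.Q331.FC.TaskEqui := by
  intro hPres E _ ν _ φ hφ
  have h : ∀ i : ℕ, ∀ᵐ y ∂iid ν, φ (sh (sh^[i] y)) = sh (φ (sh^[i] y)) := by
    intro i
    exact ((hPres E ν).iterate i).quasiMeasurePreserving.ae hφ
  have h2 : ∀ᵐ y ∂iid ν, ∀ i : ℕ, φ (sh (sh^[i] y)) = sh (φ (sh^[i] y)) := ae_all_iff.2 h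
  filter_upwards [h2] with y hy i
  induction i with
  | zero => rfl
  | succ i ih =>
    rw [Function.iterate_succ_apply', Function.iterate_succ_apply', hy i, ih]

end Pool.Agent.Q331.FC.TaskEquiH37
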