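import Pool.Agent.Q331.FC.Stmts

namespace Pool.Agent.Q331.FC.TaskEqui91

open MeasureTheory ProbabilityTheory Filter Topology Finset Pool.Agent.Q331.FC

theorem main : Pool.Agent.Q331.FC.TaskEqui := by
  intro hPres E _ ν _ φ hE
  rw [ae_all_iff]
  intro i
  induction i with
  | zero => exact Filter.Eventually.of_forall fun y => rfl
  | succ i ih =>
    have h := ((hPres E ν).iterate i).quasiMeasurePreserving.ae hE
    filter_upwards [ih, h] with y h1 h2
    rw [Function.iterate_succ_apply', Function.iterate_succ_apply', h2, h1]

end Pool.Agent.Q331.FC.TaskEqui91
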