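import Pool.Agent.Q331.FC.Stmts

set_option autoImplicit false

namespace Pool.Agent.Q331.FC.TaskInt

open MeasureTheory Filter Topology Set

theorem main : Pool.Agent.Q331.FC.TaskInt := by
  intro E _ _ ν _ h hE
  obtain ⟨A, hA, hA0, hS⟩ := hE
  haveI : Countable A := hA.to_subtype
  have hν : ν = Measure.sum (fun a : A => ν {(a : E)} • Measure.dirac (a : E)) := by
    ext s hs
    rw [Measure.sum_apply _ hs]
    have h1 : ν s = ∫⁻ x in A, s.indicator 1 x ∂ν := by
      rw [lintegral_indicator_one hs, Measure.restrict_apply hs]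
      exact (measure_inter_conull hA0).symm
    rw [h1, lintegral_countable _ hA]
    refine tsum_congr fun a => ?_
    rw [Measure.smul_apply, Measure.dirac_apply' _ hs, smul_eq_mul, mul_comm]
  have hp0 : ∀ a : A, 0 ≤ ν.real {(a : E)} := fun a => measureReal_nonneg
  have hp1 : ∀ a : A, ν.real {(a : E)} ≤ 1 := fun a => measureReal_le_one
  have hpS : HasSum (fun a : A => ν.real {(a : E)}) 1 := by
    have h1 : ∑' a : A, ν {(a : E)} = 1 := by
      have h2 : (1 : ENNReal) = ν univ := measure_univ.symm
      rw [h2]
      conv_rhs => rw [hν]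
      rw [Measure.sum_apply _ MeasurableSet.univ]
      refine tsum_congr fun a => ?_
      rw [Measure.smul_apply, measure_univ, smul_eq_mul, mul_one]
    have h3 : ∀ a : A, ν {(a : E)} ≠ ⊤ := fun a => measure_ne_top _ _
    have h4 : Summable (fun a : A => ν.real {(a : E)}) := by
      apply ENNReal.summable_toReal
      rw [h1]; exact ENNReal.one_ne_top
    have h5 := h4.hasSum
    have h6 : ∑' a : A, ν.real {(a : E)} = 1 := by
      have := ENNReal.tsum_toReal_eq h3
      rw [h1] at this
      simpa [Measure.real] using this.symm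
    rwa [h6] at h5
  have hsum : Summable (fun a : A => (ν {(a : E)}).toReal * ‖info ν h (a : E)‖) := by
    refine Summable.of_nonneg_of_le (fun a => by positivity) (fun a => ?_)
      (hS.summable.add (hpS.summable.mul_left |h|))
    have h1 : (ν {(a : E)}).toReal = ν.real {(a : E)} := rfl
    rw [h1]
    have h2 : ‖info ν h (a : E)‖ ≤ -Real.log (ν.real {(a : E)}) + |h| := by
      unfold info
      have h3 := norm_sub_le (-Real.log (ν.real {(a : E)})) h
      have h4 : 0 ≤ -Real.log (ν.real {(a : E)}) := by
        have := Real.log_nonpos (hp0 a) (hp1 a)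
        linarith
      rw [Real.norm_of_nonneg h4, Real.norm_eq_abs h] at h3
      exact h3
    have h5 := mul_le_mul_of_nonneg_left h2 (hp0 a)
    have h6 : Real.negMulLog (ν.real {(a : E)}) = -(ν.real {(a : E)} * Real.log (ν.real {(a : E)})) := by
      rw [Real.negMulLog]; ring
    rw [h6]
    linarith
  have hc : ∀ a : A, ν {(a : E)} ≠ ⊤ := fun a => measure_ne_top _ _
  have hint : Integrable (info ν h) (Measure.sum (fun a : A => ν {(a : E)} • Measure.dirac (a : E))) :=
    integrable_sum_dirac hc hsum
  have hI := hasSum_integral_sum_dirac hc hsum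
  rw [← hν] at hint
  rw [← hν] at hI
  refine ⟨hint, ?_⟩
  have h0 : HasSum (fun a : A => (ν {(a : E)}).toReal • info ν h (a : E)) (h - h * 1) := by
    have h1 := hS.sub (hpS.mul_left h)
    have h2 : (fun a : A => (ν {(a : E)}).toReal • info ν h (a : E)) =
        fun a : A => Real.negMulLog (ν.real {(a : E)}) - h * ν.real {(a : E)} := by
      funext a
      have h3 : (ν {(a : E)}).toReal = ν.real {(a : E)} := rfl
      rw [h3, smul_eq_mul, info, Real.negMulLog]
      ring
    rw [h2]
    exact h1
  have := hI.unique h0
  rw [this]; ring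

end Pool.Agent.Q331.FC.TaskInt
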