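import Pool.Agent.Q331.FC.Stmts

set_option autoImplicit false

namespace Pool.Agent.Q331.FC.TaskKey

open MeasureTheory ProbabilityTheory Filter Topology Finset
open Pool.Agent.Q331.FC

theorem sh_iter {E : Type} (i : ℕ) : ∀ (y : ℤ → E) (j : ℤ), (sh^[i] y) j = y (j + i) := by
  induction i with
  | zero => intro y j; simp
  | succ i ih =>
    intro y j
    rw [Function.iterate_succ_apply, ih]
    change y (j + i + 1) = _
    congr 1
    push_cast
    ring

theorem one_lt_lam : 1 < lam := Real.one_lt_goldenRatio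

theorem main : Pool.Agent.Q331.FC.TaskKey := by
  intro hPres hEqui hCyl hLaw hPath E _ _ ν _ φ R hφ hW
  obtain ⟨G, hG, hGw⟩ := hW
  have h1 : ∀ᵐ y ∂iid ν, ∀ i : ℕ, sh^[i] y ∈ G := by
    rw [ae_all_iff]
    intro i
    exact ((hPres E ν).iterate i).quasiMeasurePreserving.ae hG
  have h2 : ∀ᵐ y ∂iid ν, ∀ i : ℕ, φ (sh^[i] y) = sh^[i] (φ y) := hEqui hPres E ν φ hφ.equi
  have hl0 : (0 : ℝ) < lam := zero_lt_one.trans one_lt_lam
  filter_upwards [h1, h2] with y hy1 hy2 n r hwin
  have hprod : ∏ i ∈ range n, ν.real {y (i : ℤ)} =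
      (iid ν).real {y' | ∀ i : ℕ, i < n → y' (i : ℤ) = y i} := by
    rw [measureReal_def, hCyl E ν y n, ENNReal.toReal_prod]
    rfl
  rcases Nat.lt_or_ge (2 * r) n with hn | hn
  · obtain ⟨n', rfl⟩ : ∃ n', n = n' + 1 + 2 * r := ⟨n - 1 - 2 * r, by omega⟩
    set m : ℕ → Fin 2 := fun k => φ y (((r + k : ℕ) : ℤ)) with hm
    have hlaw := hLaw hPres hEqui E ν φ hφ r n' m
    have hpath := hPath n' m
    rw [← hlaw] at hpath
    rw [hprod]
    have hle : (iid ν).real {y' | ∀ i : ℕ, i < n' + 1 + 2 * r → y' (i : ℤ) = y i} ≤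
        (iid ν).real {y' | ∀ k : ℕ, k ≤ n' → φ y' (((r + k : ℕ) : ℤ)) = m k} := by
      rw [measureReal_def, measureReal_def]
      refine ENNReal.toReal_mono (measure_ne_top _ _) ?_
      refine measure_mono_ae ?_
      filter_upwards [h1, h2] with y' hy1' hy2' hcyl
      intro k hk
      have hcyl' : ∀ i : ℕ, i < n' + 1 + 2 * r → y' (i : ℤ) = y i := hcyl
      obtain ⟨hw1, hw2⟩ := hwin (r + k) (by omega) (by omega)
      have h3 := hGw _ (hy1 (r + k)) _ (hy1' (r + k)) (by
        intro j hj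
        rw [sh_iter, sh_iter]
        have hj' := abs_le.1 hj
        have h4 : 0 ≤ j + ((r + k : ℕ) : ℤ) := by
          have : (R (sh^[r + k] y) : ℤ) ≤ ((r + k : ℕ) : ℤ) := by exact_mod_cast hw1
          linarith [hj'.1]
        obtain ⟨t, ht⟩ := Int.eq_ofNat_of_zero_le h4
        rw [ht]
        apply hcyl'
        have h5 : ((R (sh^[r + k] y) + (r + k) : ℕ) : ℤ) < ((n' + 1 + 2 * r : ℕ) : ℤ) := by
          exact_mod_cast hw2
        have h6 : (t : ℤ) < ((n' + 1 + 2 * r : ℕ) : ℤ) := by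
          rw [← ht]
          push_cast at h5 ⊢
          linarith [hj'.2]
        exact_mod_cast h6)
      rw [hy2 (r + k), hy2' (r + k), sh_iter, sh_iter, zero_add] at h3
      exact h3
    refine hle.trans (hpath.trans (le_of_eq ?_))
    rw [div_eq_div_iff (by positivity) (by positivity)]
    ring
  · have hle1 : ∏ i ∈ range n, ν.real {y (i : ℤ)} ≤ 1 :=
      Finset.prod_le_one (fun _ _ => measureReal_nonneg) (fun _ _ => measureReal_le_one)
    refine hle1.trans ?_
    rw [le_div_iff₀ (by positivity), one_mul]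
    exact pow_le_pow_right₀ one_lt_lam.le (by omega)

end Pool.Agent.Q331.FC.TaskKey
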