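import Pool.Agent.Q331.FC.Stmts

namespace Pool.Agent.Q331.FC.TaskLaw

open MeasureTheory ProbabilityTheory Filter Topology Finset Pool.Agent.Q331.FC

private lemma sh_iter {E : Type} (y : ℤ → E) (r : ℕ) (j : ℤ) : (sh^[r] y) j = y (j + r) := by
  induction r generalizing y with
  | zero => simp
  | succ r ih =>
    rw [Function.iterate_succ_apply, ih]
    simp only [sh]
    push_cast
    congr 1
    ring

theorem main : Pool.Agent.Q331.FC.TaskLaw := by
  intro hPres hEqui E _ ν _ φ hF r n m
  rw [← hF.law n m]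
  have hE := hEqui hPres E ν φ hF.equi
  have hmp : MeasurePreserving (sh (E := E))^[r] (iid ν) (iid ν) := (hPres E ν).iterate r
  have hms : MeasurableSet {y : ℤ → E | ∀ k : ℕ, k ≤ n → φ y (k : ℤ) = m k} := by
    have : {y : ℤ → E | ∀ k : ℕ, k ≤ n → φ y (k : ℤ) = m k} =
        ⋂ k : ℕ, ⋂ (_ : k ≤ n), {y | φ y (k : ℤ) = m k} := by
      ext y; simp
    rw [this]
    refine MeasurableSet.iInter fun k => MeasurableSet.iInter fun _ => ?_
    exact ((measurable_pi_apply (k : ℤ)).comp hF.meas) (measurableSet_singleton (m k))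
  have h1 : (iid ν) {y | ∀ k : ℕ, k ≤ n → φ y (((r + k : ℕ) : ℤ)) = m k} =
      (iid ν) ((sh (E := E))^[r] ⁻¹' {y : ℤ → E | ∀ k : ℕ, k ≤ n → φ y (k : ℤ) = m k}) := by
    apply measure_congr
    filter_upwards [hE] with y hy
    apply propext
    change (∀ k : ℕ, k ≤ n → φ y (((r + k : ℕ) : ℤ)) = m k) ↔
      (∀ k : ℕ, k ≤ n → φ (sh^[r] y) (k : ℤ) = m k)
    rw [hy r]
    constructor
    · intro h k hk
      rw [sh_iter]
      have := h k hk
      rw [← this]
      congr 1
      push_cast; ring
    · intro h k hk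
      have := h k hk
      rw [sh_iter] at this
      rw [← this]
      congr 1
      push_cast; ring
  rw [measureReal_def, measureReal_def, h1, hmp.measure_preimage hms.nullMeasurableSet]

end Pool.Agent.Q331.FC.TaskLaw
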