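import Mathlib
import Pool.Agent.Q331.FC.Stmts

set_option autoImplicit false

namespace Pool.Agent.Q331.FC.TaskMart

open MeasureTheory ProbabilityTheory Filter Topology Finset

theorem main : Pool.Agent.Q331.FC.TaskMart := by
  intro E _ ν hν f hf hint h0
  let X : ℕ → (ℤ → E) → ℝ := fun n y => f (y (n : ℤ))
  have hXm : ∀ n, Measurable (X n) := fun n => hf.comp (measurable_pi_apply _)
  have hXs : ∀ n, StronglyMeasurable (X n) := fun n => (hXm n).stronglyMeasurable
  have hind : iIndepFun X (iid ν) := by
    have h1 : iIndepFun (fun (i : ℤ) (y : ℤ → E) => f (y i)) (iid ν) :=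
      iIndepFun_infinitePi (fun _ => hf)
    exact h1.precomp (g := fun n : ℕ => (n : ℤ)) Nat.cast_injective
  have hmp : ∀ n : ℕ, MeasurePreserving (fun y : ℤ → E => y (n : ℤ)) (iid ν) ν := fun n =>
    measurePreserving_eval_infinitePi (fun _ : ℤ => ν) (n : ℤ)
  have hXint : ∀ n, Integrable (X n) (iid ν) := fun n => (hmp n).integrable_comp_of_integrable hint
  have hX0 : ∀ n, ∫ y, X n y ∂iid ν = 0 := by
    intro n
    have h1 := integral_map (μ := iid ν) (φ := fun y : ℤ → E => y (n : ℤ))
      (hmp n).measurable.aemeasurable (f := f) (by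
        rw [(hmp n).map_eq]
        exact hf.aestronglyMeasurable)
    rw [(hmp n).map_eq, h0] at h1
    exact h1.symm
  let N : Filtration ℕ (inferInstance : MeasurableSpace (ℤ → E)) := Filtration.natural X hXs
  let F : Filtration ℕ (inferInstance : MeasurableSpace (ℤ → E)) :=
    { seq := fun n => match n with
        | 0 => ⊥
        | n + 1 => N n
      mono' := by
        intro i j hij
        match i, j, hij with
        | 0, _, _ => exact bot_le
        | i + 1, 0, h => exact absurd h (by omega)
        | i + 1, j + 1, h => exact N.mono (by omega)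
      le' := by
        intro i
        match i with
        | 0 => exact bot_le
        | i + 1 => exact N.le i }
  have hF1 : ∀ n, F (n + 1) = N n := fun n => rfl
  have hF0 : F 0 = ⊥ := rfl
  have hadX : ∀ i n, i < n → StronglyMeasurable[F n] (X i) := by
    intro i n hin
    obtain ⟨n, rfl⟩ : ∃ k, n = k + 1 := ⟨n - 1, by omega⟩
    rw [hF1]
    exact (Filtration.stronglyAdapted_natural hXs i).mono (N.mono (by omega))
  have hsum : ∀ n, (fun y : ℤ → E => ∑ i ∈ range n, f (y (i : ℤ))) = ∑ i ∈ range n, X i := by
    intro n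
    funext y
    rw [Finset.sum_apply]
  have hSm : ∀ n, StronglyMeasurable[F n] (∑ i ∈ range n, X i) := by
    intro n
    exact Finset.stronglyMeasurable_sum _ (fun i hi => hadX i n (mem_range.mp hi))
  have hSint : ∀ n, Integrable (∑ i ∈ range n, X i) (iid ν) := fun n =>
    integrable_finsetSum' _ fun i _ => hXint i
  refine ⟨F, martingale_nat ?_ ?_ ?_⟩
  · intro n
    show StronglyMeasurable[F n] (fun y : ℤ → E => ∑ i ∈ range n, f (y (i : ℤ)))
    rw [hsum]
    exact hSm n
  · intro n
    show Integrable (fun y : ℤ → E => ∑ i ∈ range n, f (y (i : ℤ))) (iid ν)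
    rw [hsum]
    exact hSint n
  · intro n
    show (fun y : ℤ → E => ∑ i ∈ range n, f (y (i : ℤ))) =ᵐ[iid ν]
      (iid ν)[(fun y : ℤ → E => ∑ i ∈ range (n + 1), f (y (i : ℤ))) | F n]
    rw [hsum, hsum, Finset.sum_range_succ]
    have h1 : (iid ν)[X n | F n] =ᵐ[iid ν] 0 := by
      cases n with
      | zero =>
        rw [hF0, condExp_bot, hX0 0]
        rfl
      | succ n =>
        rw [hF1]
        have h2 := hind.condExp_natural_ae_eq_of_lt hXs (Nat.lt_succ_self n)
        filter_upwards [h2] with y hy
        rw [hy]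
        exact hX0 (n + 1)
    have h3 := condExp_add (hSint n) (hXint n) (F n)
    have h4 : (iid ν)[∑ i ∈ range n, X i | F n] = ∑ i ∈ range n, X i :=
      condExp_of_stronglyMeasurable (F.le n) (hSm n) (hSint n)
    rw [h4] at h3
    filter_upwards [h1, h3] with y hy1 hy3
    rw [hy3]
    simp only [Pi.add_apply]
    rw [hy1]
    simp

end Pool.Agent.Q331.FC.TaskMart
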