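import Pool.Agent.Q331.FC.Stmts

open MeasureTheory ProbabilityTheory Filter Topology Finset

namespace Pool.Agent.Q331.FC.TaskMart_h97

open Pool.Agent.Q331.FC

theorem main : Pool.Agent.Q331.FC.TaskMart := by
  intro E _ ν _ f hf hint h0
  set g : ℕ → (ℤ → E) → ℝ := fun i y => f (y (i : ℤ)) with hg
  have hgm : ∀ i, Measurable (g i) := fun i => hf.comp (measurable_pi_apply _)
  have hgs : ∀ i, StronglyMeasurable (g i) := fun i => (hgm i).stronglyMeasurable
  have hind : iIndepFun g (iid ν) := by
    have h1 : iIndepFun (fun (i : ℤ) (y : ℤ → E) => f (y i)) (iid ν) :=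
      iIndepFun_infinitePi (P := fun _ : ℤ => ν) (X := fun _ => f) (fun _ => hf)
    exact h1.precomp (g := fun i : ℕ => (i : ℤ)) Nat.cast_injective
  have hmp : ∀ i : ℕ, MeasurePreserving (fun y : ℤ → E => y (i : ℤ)) (iid ν) ν := fun i =>
    measurePreserving_eval_infinitePi (fun _ : ℤ => ν) (i : ℤ)
  have hgi : ∀ i, Integrable (g i) (iid ν) := fun i => (hmp i).integrable_comp_of_integrable hint
  have hg0 : ∀ i, ∫ y, g i y ∂iid ν = 0 := by
    intro i
    have h2 : ∫ y, f (y (i : ℤ)) ∂iid ν = ∫ e, f e ∂(Measure.map (fun y : ℤ → E => y (i : ℤ)) (iid ν)) :=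
      (integral_map (hmp i).measurable.aemeasurable
        (hf.aestronglyMeasurable)).symm
    rw [hg]
    dsimp only
    rw [h2, (hmp i).map_eq, h0]
  let N := Filtration.natural g hgs
  let F : Filtration ℕ (inferInstance : MeasurableSpace (ℤ → E)) :=
    { seq := fun n => Nat.casesOn n ⊥ (fun k => N k)
      mono' := by
        intro a b hab
        cases a with
        | zero => exact bot_le
        | succ a =>
          cases b with
          | zero => omega
          | succ b => exact N.mono (by omega)
      le' := by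
        intro n
        cases n with
        | zero => exact bot_le
        | succ k => exact N.le k }
  refine ⟨F, martingale_of_condExp_sub_eq_zero_nat ?_ ?_ ?_⟩
  · intro n
    refine Finset.stronglyMeasurable_fun_sum _ (fun i hi => ?_)
    have hi' : i < n := Finset.mem_range.1 hi
    cases n with
    | zero => omega
    | succ k =>
      have h3 : StronglyMeasurable[N i] (g i) := Filtration.stronglyAdapted_natural hgs i
      exact h3.mono (N.mono (by omega))
  · intro n
    exact integrable_finset_sum _ (fun i _ => hgi i)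
  · intro n
    have h4 : (fun y : ℤ → E => ∑ i ∈ range (n + 1), f (y (i : ℤ))) -
        (fun y : ℤ → E => ∑ i ∈ range n, f (y (i : ℤ))) = g n := by
      ext y
      simp [Finset.sum_range_succ, hg]
    rw [h4]
    cases n with
    | zero =>
      have h5 : (iid ν)[g 0 | (⊥ : MeasurableSpace (ℤ → E))] = fun _ => ∫ y, g 0 y ∂iid ν :=
        condExp_bot _
      change (iid ν)[g 0 | (⊥ : MeasurableSpace (ℤ → E))] =ᵐ[iid ν] 0
      rw [h5, hg0 0]
      rfl
    | succ k =>
      have h6 := hind.condExp_natural_ae_eq_of_lt hgs (Nat.lt_succ_self k)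
      rw [hg0] at h6
      exact h6

end Pool.Agent.Q331.FC.TaskMart_h97
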