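import Pool.Agent.Q331.FC.Stmts

set_option autoImplicit false

namespace Pool.Agent.Q331.FC.TaskNeg

open MeasureTheory ProbabilityTheory Filter Topology Finset

theorem main : Pool.Agent.Q331.FC.TaskNeg := by
  intro h K c hh hK hc
  have hsum : Summable (fun r : ℕ => K * Real.exp (-(c * r))) := by
    apply Summable.mul_left
    have : (fun r : ℕ => Real.exp (-(c * r))) = fun r : ℕ => (Real.exp (-c)) ^ r := by
      funext r
      rw [← Real.exp_nat_mul]
      congr 1
      ring
    rw [this]
    exact summable_geometric_of_lt_one (Real.exp_pos _).le (Real.exp_lt_one_iff.2 (by linarith))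
  have hnn : ∀ r : ℕ, 0 ≤ K * Real.exp (-(c * r)) := fun r => by positivity
  have hS0 : 0 ≤ ∑' r : ℕ, K * Real.exp (-(c * r)) := tsum_nonneg hnn
  refine ⟨2 * h + 2 * h * ∑' r : ℕ, K * Real.exp (-(c * r)), by positivity, ?_⟩
  intro Ω _ μ _ f hf htail
  have hpt : ∀ ω, ENNReal.ofReal (-(f ω)) ≤ ENNReal.ofReal (2 * h) +
      ∑' r : ℕ, ({ω | f ω < -((2 * r + 2) * h)} : Set Ω).indicator
        (fun _ => ENNReal.ofReal (2 * h)) ω := by
    intro ω
    have hex : ∃ N : ℕ, -(f ω) ≤ (2 * N + 2) * h := by
      obtain ⟨N, hN⟩ := exists_nat_ge (-(f ω) / h)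
      refine ⟨N, ?_⟩
      rw [div_le_iff₀ hh] at hN
      have : (0 : ℝ) ≤ N := Nat.cast_nonneg N
      nlinarith
    classical
    have hN := Nat.find_spec hex
    have hlt : ∀ r < Nat.find hex, (2 * (r : ℝ) + 2) * h < -(f ω) := fun r hr =>
      not_le.1 (Nat.find_min hex hr)
    set N := Nat.find hex
    have h1 : (N : ENNReal) * ENNReal.ofReal (2 * h) ≤
        ∑' r : ℕ, ({ω | f ω < -((2 * r + 2) * h)} : Set Ω).indicator
          (fun _ => ENNReal.ofReal (2 * h)) ω := by
      calc (N : ENNReal) * ENNReal.ofReal (2 * h) = ∑ r ∈ range N, ENNReal.ofReal (2 * h) := by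
            simp
        _ = ∑ r ∈ range N, ({ω | f ω < -((2 * r + 2) * h)} : Set Ω).indicator
            (fun _ => ENNReal.ofReal (2 * h)) ω := by
            refine Finset.sum_congr rfl fun r hr => ?_
            rw [Set.indicator_of_mem]
            have := hlt r (Finset.mem_range.1 hr)
            show f ω < -((2 * r + 2) * h)
            linarith
        _ ≤ _ := ENNReal.sum_le_tsum _
    calc ENNReal.ofReal (-(f ω)) ≤ ENNReal.ofReal (2 * h + N * (2 * h)) := by
          apply ENNReal.ofReal_le_ofReal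
          calc -(f ω) ≤ _ := hN
            _ = _ := by ring
      _ = ENNReal.ofReal (2 * h) + (N : ENNReal) * ENNReal.ofReal (2 * h) := by
          rw [ENNReal.ofReal_add (by positivity) (by positivity),
            ENNReal.ofReal_mul (Nat.cast_nonneg N), ENNReal.ofReal_natCast]
      _ ≤ _ := by gcongr
  have hnull : ∀ r : ℕ, NullMeasurableSet ({ω | f ω < -((2 * r + 2) * h)} : Set Ω) μ := fun r =>
    nullMeasurableSet_lt hf aemeasurable_const
  calc ∫⁻ ω, ENNReal.ofReal (-(f ω)) ∂μ
      ≤ ∫⁻ ω, (ENNReal.ofReal (2 * h) +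
      ∑' r : ℕ, ({ω | f ω < -((2 * r + 2) * h)} : Set Ω).indicator
        (fun _ => ENNReal.ofReal (2 * h)) ω) ∂μ := lintegral_mono hpt
    _ = ENNReal.ofReal (2 * h) + ∑' r : ℕ, ENNReal.ofReal (2 * h) *
        μ {ω | f ω < -((2 * r + 2) * h)} := by
        rw [lintegral_add_left measurable_const, lintegral_const, measure_univ, mul_one,
          lintegral_tsum fun r => (aemeasurable_const.indicator₀ (hnull r))]
        congr 1
        refine tsum_congr fun r => ?_
        rw [lintegral_indicator_const₀ (hnull r)]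
    _ ≤ ENNReal.ofReal (2 * h) + ∑' r : ℕ, ENNReal.ofReal (2 * h) *
        ENNReal.ofReal (K * Real.exp (-(c * r))) := by
        gcongr with r
        exact htail r
    _ = ENNReal.ofReal (2 * h + 2 * h * ∑' r : ℕ, K * Real.exp (-(c * r))) := by
        rw [ENNReal.tsum_mul_left, ← ENNReal.ofReal_tsum_of_nonneg hnn hsum,
          ← ENNReal.ofReal_mul (by positivity), ← ENNReal.ofReal_add (by positivity)
            (by positivity)]

end Pool.Agent.Q331.FC.TaskNeg
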