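import Pool.Agent.Q331.FC.Stmts

set_option autoImplicit false

open Finset

namespace Pool.Agent.Q331.FC.TaskPath

private theorem one_lt : (1 : ℝ) < lam := Real.one_lt_goldenRatio

private theorem pos : (0 : ℝ) < lam := lt_trans one_pos one_lt

/-- the weights -/
private noncomputable def v : Fin 2 → ℝ := ![1, 1 / lam]

private theorem v_pos (i : Fin 2) : 0 < v i := by
  have := pos
  fin_cases i
  · simp [v]
  · simp [v, this]

private theorem v_le (i : Fin 2) : v i ≤ 1 := by
  have h := one_lt
  fin_cases i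
  · simp [v]
  · show 1 / lam ≤ 1
    rw [div_le_one pos]
    exact h.le

private theorem gP_nonneg (i j : Fin 2) : 0 ≤ gP i j := by
  have h := pos
  fin_cases i <;> fin_cases j
  · show 0 ≤ 1 / lam
    positivity
  · show 0 ≤ 1 / lam ^ 2
    positivity
  · show (0 : ℝ) ≤ 1
    norm_num
  · show (0 : ℝ) ≤ 0
    norm_num

private theorem gP_le (i j : Fin 2) : gP i j ≤ v j / (lam * v i) := by
  have h := pos
  fin_cases i <;> fin_cases j
  · show 1 / lam ≤ 1 / (lam * 1)
    rw [mul_one]
  · show 1 / lam ^ 2 ≤ (1 / lam) / (lam * 1)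
    rw [mul_one, div_div, sq]
  · show (1 : ℝ) ≤ 1 / (lam * (1 / lam))
    rw [mul_one_div_cancel h.ne', div_one]
  · show (0 : ℝ) ≤ (1 / lam) / (lam * (1 / lam))
    positivity

private theorem prod_le (m : ℕ → Fin 2) (n : ℕ) :
    ∏ k ∈ range n, gP (m k) (m (k + 1)) ≤ v (m n) / (lam ^ n * v (m 0)) := by
  induction n with
  | zero =>
    have := v_pos (m 0)
    simp only [range_zero, prod_empty, pow_zero, one_mul]
    rw [div_self this.ne']
  | succ n ih =>
    rw [prod_range_succ]
    have h0 := pos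
    have h1 := v_pos (m n)
    have h2 := v_pos (m 0)
    have h3 := v_pos (m (n + 1))
    calc (∏ k ∈ range n, gP (m k) (m (k + 1))) * gP (m n) (m (n + 1))
        ≤ (v (m n) / (lam ^ n * v (m 0))) * (v (m (n + 1)) / (lam * v (m n))) :=
          mul_le_mul ih (gP_le _ _) (gP_nonneg _ _) (by positivity)
      _ = v (m (n + 1)) / (lam ^ (n + 1) * v (m 0)) := by
        rw [pow_succ]
        field_simp

private theorem gpi_le (i : Fin 2) : gpi i ≤ lam * v i := by
  have h := pos
  have h1 := one_lt
  fin_cases i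
  · show lam ^ 2 / (lam ^ 2 + 1) ≤ lam * 1
    rw [div_le_iff₀ (by positivity)]
    nlinarith
  · show 1 / (lam ^ 2 + 1) ≤ lam * (1 / lam)
    rw [mul_one_div_cancel h.ne', div_le_one (by positivity)]
    nlinarith

private theorem gpi_nonneg (i : Fin 2) : 0 ≤ gpi i := by
  have h := pos
  fin_cases i
  · show 0 ≤ lam ^ 2 / (lam ^ 2 + 1)
    positivity
  · show 0 ≤ 1 / (lam ^ 2 + 1)
    positivity

theorem main : Pool.Agent.Q331.FC.TaskPath := by
  intro n m
  have h0 := pos
  have h2 := v_pos (m 0)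
  unfold pathProb
  calc gpi (m 0) * ∏ k ∈ range n, gP (m k) (m (k + 1))
      ≤ (lam * v (m 0)) * (v (m n) / (lam ^ n * v (m 0))) :=
        mul_le_mul (gpi_le _) (prod_le m n) (Finset.prod_nonneg fun _ _ => gP_nonneg _ _)
          (by positivity)
    _ = lam * v (m n) / lam ^ n := by field_simp
    _ ≤ lam * 1 / lam ^ n := by
        have := v_le (m n)
        gcongr
    _ = lam / lam ^ n := by rw [mul_one]

end Pool.Agent.Q331.FC.TaskPath
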