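import Pool.Agent.Q331.FC.Stmts

set_option autoImplicit false

namespace Pool.Agent.Q331.FC.TaskPos

open Pool.Agent.Q331.FC MeasureTheory Filter

theorem main : Pool.Agent.Q331.FC.TaskPos := by
  intro E _ _ ν _ h hh
  obtain ⟨A, hA, hA0, -⟩ := hh
  have h1 : ∀ᵐ e ∂ν, 0 < ν.real {e} := by
    rw [ae_iff]
    have hsub : {a | ¬ 0 < ν.real {a}} ⊆ Aᶜ ∪ ⋃ a ∈ {a ∈ A | ν {a} = 0}, {a} := by
      intro e he
      by_cases hea : e ∈ A
      · right
        have h2 : ν.real {e} = 0 := le_antisymm (not_lt.1 he) measureReal_nonneg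
        have h3 : ν {e} = 0 := (measureReal_eq_zero_iff).1 h2
        exact Set.mem_biUnion (show e ∈ {a ∈ A | ν {a} = 0} from ⟨hea, h3⟩) rfl
      · exact Or.inl hea
    refine measure_mono_null hsub (measure_union_null hA0 ?_)
    refine (measure_biUnion_null_iff (hA.mono (Set.sep_subset _ _))).2 fun a ha => ha.2
  refine ⟨h1, ?_⟩
  rw [ae_all_iff]
  intro i
  have h4 := (_root_.measurePreserving_eval_infinitePi (fun _ : ℤ => ν) i)
  exact h4.quasiMeasurePreserving.ae h1

end Pool.Agent.Q331.FC.TaskPos
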