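import Pool.Agent.Q331.FC.Stmts

set_option autoImplicit false

namespace Pool.Agent.Q331.FC.TaskPres

open MeasureTheory ProbabilityTheory Filter Topology Finset

theorem main : Pool.Agent.Q331.FC.TaskPres := by
  intro E _ ν _
  have hm : Measurable (sh (E := E)) := by
    unfold sh
    exact measurable_pi_lambda _ fun i => measurable_pi_apply (i + 1)
  refine ⟨hm, ?_⟩
  have h := Measure.infinitePi_map_piCongrLeft (X := fun _ : ℤ => E) (μ := fun _ : ℤ => ν)
    (Equiv.subRight (1 : ℤ))
  have e : ⇑(MeasurableEquiv.piCongrLeft (fun _ : ℤ => E) (Equiv.subRight (1 : ℤ))) = sh (E := E) := by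
    funext y i
    unfold sh
    rw [MeasurableEquiv.coe_piCongrLeft]
    have h2 := Equiv.piCongrLeft_apply_apply (fun _ : ℤ => E) (Equiv.subRight (1 : ℤ)) y (i + 1)
    simpa using h2
  rw [e] at h
  exact h

end Pool.Agent.Q331.FC.TaskPres
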