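import Pool.Agent.Q331.FC.Stmts

/-! TaskSn of the blueprint of helper331 (proof: helper155) -/

namespace Pool.Agent.Q331.FC.TaskSn

open Pool.Agent.Q331.FC MeasureTheory ProbabilityTheory Filter Topology Finset

theorem main : Pool.Agent.Q331.FC.TaskSn := by
  intro hInt E _ _ ν _ h hE n
  obtain ⟨h1, h2⟩ := hInt E ν h hE
  have hmp : ∀ i : ℤ, MeasurePreserving (fun y : ℤ → E => y i) (iid ν) ν := fun i =>
    measurePreserving_eval_infinitePi (fun _ : ℤ => ν) i
  have hi : ∀ i : ℕ, Integrable (fun y : ℤ → E => info ν h (y (i : ℤ))) (iid ν) := fun i =>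
    (hmp i).integrable_comp_of_integrable h1
  have h0 : ∀ i : ℕ, ∫ y, info ν h (y (i : ℤ)) ∂iid ν = 0 := by
    intro i
    have h3 : ∫ y, info ν h (y (i : ℤ)) ∂iid ν = ∫ e, info ν h e ∂((iid ν).map
        (fun y : ℤ → E => y (i : ℤ))) := by
      rw [integral_map (hmp i).measurable.aemeasurable]
      rw [(hmp i).map_eq]
      exact h1.aestronglyMeasurable
    rw [h3, (hmp i).map_eq, h2]
  unfold Sn
  refine ⟨integrable_finsetSum _ (fun i _ => hi i), ?_⟩
  rw [integral_finsetSum _ (fun i _ => hi i)]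
  exact Finset.sum_eq_zero (fun i _ => h0 i)

end Pool.Agent.Q331.FC.TaskSn
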