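import Pool.Agent.Q331.FC.Stmts

set_option autoImplicit false

namespace Pool.Agent.Q331.FC.TaskTail

open MeasureTheory ProbabilityTheory Filter Topology Finset Pool.Agent.Q331.FC

theorem main : Pool.Agent.Q331.FC.TaskTail := by
  intro hKey hUnion hPos hPres hEqui hCyl hLaw hPath E _ _ ν _ φ R hEnt hF hW hT
  obtain ⟨C, c, hc, hT⟩ := hT
  obtain ⟨K, hK, hU⟩ := hUnion hPres E ν R C c hc hT
  refine ⟨K, c, hK, hc, fun n r => le_trans (measure_mono_ae ?_) (hU n r)⟩
  have key := hKey hPres hEqui hCyl hLaw hPath E ν φ R hF hW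
  have pos := (hPos E ν (Real.log lam) hEnt).2
  filter_upwards [key, pos] with y h1 h2
  intro hy
  show ¬ Win R n r y
  intro hWin
  have h3 := h1 n r hWin
  have hl : 0 < lam := Real.goldenRatio_pos
  have h0 : 0 < ∏ i ∈ range n, ν.real {y (i : ℤ)} := prod_pos fun i _ => h2 _
  have h4 := Real.log_le_log h0 h3
  rw [Real.log_prod (fun (i : ℕ) _ => (h2 (i : ℤ)).ne'), Real.log_div (by positivity) (by positivity),
    Real.log_pow, Real.log_pow] at h4
  have h5 : Sn ν (Real.log lam) n y < -((2 * r + 2) * Real.log lam) := hy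
  unfold Sn info at h5
  rw [sum_sub_distrib, sum_neg_distrib, sum_const, card_range, nsmul_eq_mul] at h5
  push_cast at h4
  linarith

end Pool.Agent.Q331.FC.TaskTail
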