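import Pool.Agent.Q331.FC.Stmts

/-! `TaskUnion` of the blueprint of helper331 for MP_207c40_pr (helper126). -/

set_option autoImplicit false

namespace Pool.Agent.Q331.FC.TaskUnion

open Pool.Agent.Q331.FC
open MeasureTheory ProbabilityTheory Filter Topology Finset

theorem main' : Pool.Agent.Q331.FC.TaskUnion := by
  intro hP E _ ν _ R C c hc hR
  have hpres : ∀ i : ℕ, MeasurePreserving ((sh (E := E))^[i]) (iid ν) (iid ν) :=
    fun i => (hP E ν).iterate i
  have hA : ∀ i m : ℕ, iid ν {y | m < R (sh^[i] y)} ≤ ENNReal.ofReal (max C 0 * Real.exp (-(c * m))) := by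
    intro i m
    have h1 : iid ν ((sh (E := E))^[i] ⁻¹' {y | m < R y}) ≤ iid ν {y | m < R y} := by
      have h2 := Measure.le_map_apply (μ := iid ν) (hpres i).measurable.aemeasurable {y | m < R y}
      rwa [(hpres i).map_eq] at h2
    refine h1.trans ((hR m).trans (ENNReal.ofReal_le_ofReal ?_))
    exact mul_le_mul_of_nonneg_right (le_max_left _ _) (Real.exp_pos _).le
  have hx0 : 0 ≤ Real.exp (-c) := (Real.exp_pos _).le
  have hx1 : Real.exp (-c) < 1 := by
    rw [Real.exp_lt_one_iff]; linarith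
  have hD0 : 0 ≤ max C 0 := le_max_right _ _
  have hsum : ∀ r : ℕ, HasSum (fun j : ℕ => max C 0 * Real.exp (-(c * ((r + j : ℕ) : ℝ))))
      (max C 0 / (1 - Real.exp (-c)) * Real.exp (-(c * r))) := by
    intro r
    have h1 := (hasSum_geometric_of_lt_one hx0 hx1).mul_left (max C 0 * Real.exp (-(c * r)))
    have h2 : (fun j : ℕ => max C 0 * Real.exp (-(c * r)) * Real.exp (-c) ^ j) =
        fun j : ℕ => max C 0 * Real.exp (-(c * ((r + j : ℕ) : ℝ))) := by
      funext j
      rw [mul_assoc, ← Real.exp_nat_mul, ← Real.exp_add]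
      congr 2
      push_cast
      ring
    rw [h2] at h1
    have h3 : max C 0 / (1 - Real.exp (-c)) * Real.exp (-(c * r)) =
        max C 0 * Real.exp (-(c * r)) * (1 - Real.exp (-c))⁻¹ := by
      rw [div_eq_mul_inv]
      ring
    rw [h3]
    exact h1
  have hB : ∀ (r : ℕ) (k : ℕ → ℕ),
      iid ν (⋃ j : ℕ, {y | r + j < R (sh^[k j] y)}) ≤
        ENNReal.ofReal (max C 0 / (1 - Real.exp (-c)) * Real.exp (-(c * r))) := by
    intro r k
    refine (measure_iUnion_le _).trans ?_
    rw [← (hsum r).tsum_eq, ENNReal.ofReal_tsum_of_nonneg (fun j => by positivity) (hsum r).summable]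
    exact ENNReal.tsum_le_tsum fun j => hA (k j) (r + j)
  refine ⟨2 * (max C 0 / (1 - Real.exp (-c))), ?_, fun n r => ?_⟩
  · have : 0 < 1 - Real.exp (-c) := by linarith
    positivity
  have hsub : {y | ¬ Win R n r y} ⊆ (⋃ j : ℕ, {y : ℤ → E | r + j < R (sh^[r + j] y)}) ∪
      ⋃ j : ℕ, {y : ℤ → E | r + j < R (sh^[n - 1 - (r + j)] y)} := by
    intro y hy
    simp only [Set.mem_setOf_eq, Win, not_forall] at hy
    obtain ⟨i, hi1, hi2, hi3⟩ := hy
    rcases not_and_or.1 hi3 with h | h
    · left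
      refine Set.mem_iUnion.2 ⟨i - r, ?_⟩
      simp only [Set.mem_setOf_eq]
      rw [Nat.add_sub_cancel' hi1]
      exact not_le.1 h
    · right
      refine Set.mem_iUnion.2 ⟨n - 1 - i - r, ?_⟩
      simp only [Set.mem_setOf_eq]
      have h5 : n - 1 - (r + (n - 1 - i - r)) = i := by omega
      rw [h5]
      omega
  refine (measure_mono hsub).trans ((measure_union_le _ _).trans ?_)
  refine (add_le_add (hB r _) (hB r _)).trans ?_
  have h0 : 0 ≤ max C 0 / (1 - Real.exp (-c)) * Real.exp (-(c * r)) := by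
    have : 0 < 1 - Real.exp (-c) := by linarith
    positivity
  rw [← ENNReal.ofReal_add h0 h0]
  exact ENNReal.ofReal_le_ofReal (by linarith)

theorem main (_h : TaskPres) : Pool.Agent.Q331.FC.TaskUnion := main'

end Pool.Agent.Q331.FC.TaskUnion
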