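import Mathlib
import Pool.Agent.Q331.FC.Stmts

set_option autoImplicit false

namespace Pool.Agent.Q331.FC.TaskZero

open MeasureTheory ProbabilityTheory Filter Topology Finset Pool.Agent.Q331.FC

theorem main : Pool.Agent.Q331.FC.TaskZero := by
  intro hM E _ ν _ f hf hf0 D hD
  have hev : ∀ i : ℤ, MeasurePreserving (fun y : ℤ → E => y i) (iid ν) ν := fun i =>
    measurePreserving_eval_infinitePi (fun _ : ℤ => ν) i
  set g : E → ℝ := hf.aestronglyMeasurable.mk f with hg
  have hgm : StronglyMeasurable g := hf.aestronglyMeasurable.stronglyMeasurable_mk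
  have hfg : f =ᵐ[ν] g := hf.aestronglyMeasurable.ae_eq_mk
  have hgi : Integrable g ν := hf.congr hfg
  have hg0 : ∫ e, g e ∂ν = 0 := by rw [← hf0]; exact (integral_congr_ae hfg).symm
  obtain ⟨F, hF⟩ := hM E ν g hgm.measurable hgi hg0
  have hcomp : ∀ᵐ y ∂iid ν, ∀ i : ℕ, f (y (i : ℤ)) = g (y (i : ℤ)) := by
    rw [ae_all_iff]
    intro i
    exact (hev (i : ℤ)).quasiMeasurePreserving.ae hfg
  have hint : ∀ n : ℕ, ∫ y, |∑ i ∈ range n, g (y (i : ℤ))| ∂iid ν ≤ D := by
    intro n
    refine le_of_eq_of_le ?_ (hD n)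
    refine integral_congr_ae ?_
    filter_upwards [hcomp] with y hy
    simp only [hy]
  have hgI : ∀ i : ℤ, Integrable (fun y : ℤ → E => g (y i)) (iid ν) := fun i =>
    (hev i).integrable_comp_of_integrable hgi
  have hXI : ∀ n : ℕ, Integrable (fun y : ℤ → E => ∑ i ∈ range n, g (y (i : ℤ))) (iid ν) :=
    fun n => integrable_finset_sum _ fun i _ => hgI i
  have hlim := hF.submartingale.ae_tendsto_limitProcess (R := D.toNNReal) (fun n => by
    rw [eLpNorm_one_eq_lintegral_enorm]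
    have h1 : ∫⁻ y, ‖∑ i ∈ range n, g (y (i : ℤ))‖ₑ ∂iid ν =
        ENNReal.ofReal (∫ y, ‖∑ i ∈ range n, g (y (i : ℤ))‖ ∂iid ν) := by
      rw [ofReal_integral_norm_eq_lintegral_enorm (hXI n)]
    rw [h1]
    exact ENNReal.ofReal_le_ofReal (hint n))
  have hstep : ∀ᵐ y ∂iid ν, Tendsto (fun n : ℕ => g (y (n : ℤ))) atTop (𝓝 0) := by
    filter_upwards [hlim] with y hy
    have h1 := (hy.comp (tendsto_add_atTop_nat 1)).sub hy
    rw [sub_self] at h1
    refine h1.congr fun n => ?_
    simp [Finset.sum_range_succ]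
  have hmeas := tendstoInMeasure_of_tendsto_ae (μ := iid ν) (f := fun (n : ℕ) y => g (y (n : ℤ)))
    (g := fun _ => (0:ℝ)) (fun n => (hgI n).aestronglyMeasurable) hstep
  have hzero : ∀ ε : ℝ, 0 < ε → ν {e | ε ≤ ‖g e‖} = 0 := by
    intro ε hε
    rw [tendstoInMeasure_iff_norm] at hmeas
    have h1 := hmeas ε hε
    simp only [sub_zero] at h1
    have h2 : ∀ n : ℕ, iid ν {y | ε ≤ ‖g (y (n : ℤ))‖} = ν {e | ε ≤ ‖g e‖} := by
      intro n
      have hs : MeasurableSet {e | ε ≤ ‖g e‖} :=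
        measurableSet_le measurable_const hgm.measurable.norm
      rw [← (hev n).measure_preimage hs.nullMeasurableSet]
      rfl
    simp only [h2] at h1
    exact tendsto_nhds_unique tendsto_const_nhds h1
  have hg : g =ᵐ[ν] 0 := by
    have h1 : ∀ᵐ e ∂ν, ∀ n : ℕ, ‖g e‖ < 1 / ((n : ℝ) + 1) := by
      rw [ae_all_iff]
      intro n
      rw [ae_iff]
      simp only [not_lt]
      exact hzero _ (by positivity)
    filter_upwards [h1] with e he
    have h2 : ‖g e‖ ≤ 0 := by
      refine ge_of_tendsto (tendsto_one_div_add_atTop_nhds_zero_nat (𝕜 := ℝ)) ?_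
      exact Eventually.of_forall fun n => (he n).le
    simpa using h2
  exact hfg.trans hg

end Pool.Agent.Q331.FC.TaskZero
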