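import Pool.Agent.Q331.FC.Stmts

namespace Pool.Agent.Q331.FC.TaskZero91

open MeasureTheory ProbabilityTheory Filter Topology Finset Pool.Agent.Q331.FC

theorem main : Pool.Agent.Q331.FC.TaskZero := by
  intro hMart E _ ν _ f hf hf0 D hD
  set g : E → ℝ := hf.1.mk f with hg
  have hgm : Measurable g := hf.1.stronglyMeasurable_mk.measurable
  have hfg : f =ᵐ[ν] g := hf.1.ae_eq_mk
  have hgi : Integrable g ν := hf.congr hfg
  have hg0 : ∫ e, g e ∂ν = 0 := by rw [← hf0]; exact (integral_congr_ae hfg).symm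
  obtain ⟨F, hF⟩ := hMart E ν g hgm hgi hg0
  have hev : ∀ i : ℤ, MeasurePreserving (Function.eval i) (iid ν) ν := fun i =>
    measurePreserving_eval_infinitePi (fun _ : ℤ => ν) i
  have hae : ∀ᵐ y ∂iid ν, ∀ i : ℤ, f (y i) = g (y i) := by
    rw [ae_all_iff]
    intro i
    exact (hev i).quasiMeasurePreserving.ae hfg
  have hbd : ∀ n : ℕ, eLpNorm (fun (y : ℤ → E) => ∑ i ∈ range n, g (y (i : ℤ))) 1 (iid ν) ≤
      ((Real.toNNReal D : NNReal) : ENNReal) := by
    intro n
    have h1 : Integrable (fun (y : ℤ → E) => ∑ i ∈ range n, g (y (i : ℤ))) (iid ν) :=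
      hF.integrable n
    rw [eLpNorm_one_eq_lintegral_enorm, ← ofReal_integral_norm_eq_lintegral_enorm h1]
    apply ENNReal.ofReal_le_ofReal
    refine le_trans (le_of_eq ?_) (hD n)
    apply integral_congr_ae
    filter_upwards [hae] with y hy
    rw [Real.norm_eq_abs]
    congr 1
    exact Finset.sum_congr rfl fun i _ => (hy i).symm
  have hconv := hF.submartingale.ae_tendsto_limitProcess hbd
  have hstep : ∀ᵐ y ∂iid ν, Tendsto (fun n : ℕ => g (y (n : ℤ))) atTop (𝓝 0) := by
    filter_upwards [hconv] with y hy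
    have h2 := (hy.comp (tendsto_add_atTop_nat 1)).sub hy
    rw [sub_self] at h2
    refine h2.congr fun n => ?_
    simp [Finset.sum_range_succ]
  have hmeas := tendstoInMeasure_of_tendsto_ae (μ := iid ν)
    (f := fun (n : ℕ) (y : ℤ → E) => g (y (n : ℤ))) (g := fun _ => (0 : ℝ))
    (fun n => (hgm.comp (measurable_pi_apply (n : ℤ))).aestronglyMeasurable) hstep
  have hzero : ∀ ε : ℝ, 0 < ε → ν {e | ε ≤ |g e|} = 0 := by
    intro ε hε
    have h3 := hmeas (ENNReal.ofReal ε) (by simpa using hε)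
    have h4 : ∀ n : ℕ, iid ν {y : ℤ → E | ENNReal.ofReal ε ≤ edist (g (y (n : ℤ))) 0} =
        ν {e | ε ≤ |g e|} := by
      intro n
      have hset : {y : ℤ → E | ENNReal.ofReal ε ≤ edist (g (y (n : ℤ))) 0} =
          (Function.eval (n : ℤ)) ⁻¹' {e | ε ≤ |g e|} := by
        ext y
        simp only [Set.mem_setOf_eq, Set.mem_preimage, Function.eval]
        rw [edist_dist, Real.dist_eq, sub_zero, ENNReal.ofReal_le_ofReal_iff (abs_nonneg _)]
      rw [hset]
      exact (hev (n : ℤ)).measure_preimage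
        (measurableSet_le measurable_const hgm.abs).nullMeasurableSet
    simp only [h4] at h3
    exact tendsto_nhds_unique tendsto_const_nhds h3
  have hg00 : g =ᵐ[ν] 0 := by
    have h5 : ν (⋃ n : ℕ, {e | (1 : ℝ) / (n + 1) ≤ |g e|}) = 0 := by
      rw [measure_iUnion_null_iff]
      intro n
      exact hzero _ (by positivity)
    rw [Filter.EventuallyEq, ae_iff]
    refine measure_mono_null ?_ h5
    intro e he
    simp only [Set.mem_setOf_eq, Pi.zero_apply] at he
    obtain ⟨n, hn⟩ := exists_nat_one_div_lt (abs_pos.mpr he)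
    exact Set.mem_iUnion.mpr ⟨n, hn.le⟩
  exact hfg.trans hg00

end Pool.Agent.Q331.FC.TaskZero91
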